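import Pool.Agent.Q44.JQ.StmE
import Pool.Agent.Q182.JQ.ADJH

/-!
# JQ-ADJP
-/

set_option autoImplicit false
set_option linter.unusedVariables false

namespace Q149.JQ.ADJP

open Finset Module Q44.JQ Q182.JQ.ADJH
open Pool.Agent.TH344.JG (PR df)
open scoped Classical

theorem ct_mul {T : Finset ℕ} (hT : ∀ p ∈ T, p.Prime) {a b : ℤ} (ha : a ≠ 0) (hb : b ≠ 0)
    (o : Option T) : (ct (a * b) : Option T → ZMod 2) o = ct a o + ct b o := by
  cases o with
  | none =>
    simp only [ct, Option.elim]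
    have h2 : (1 + 1 : ZMod 2) = 0 := by decide
    rcases lt_or_gt_of_ne ha with h | h <;> rcases lt_or_gt_of_ne hb with h' | h'
    · rw [if_neg (not_lt.2 (mul_pos_of_neg_of_neg h h').le), if_pos h, if_pos h', h2]
    · rw [if_pos (mul_neg_of_neg_of_pos h h'), if_pos h, if_neg (not_lt.2 h'.le), add_zero]
    · rw [if_pos (mul_neg_of_pos_of_neg h h'), if_neg (not_lt.2 h.le), if_pos h', zero_add]
    · rw [if_neg (not_lt.2 (mul_pos h h').le), if_neg (not_lt.2 h.le), if_neg (not_lt.2 h'.le), add_zero]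
  | some t => exact ct_mul_some hT ha hb t

theorem pr_mul' {T : Finset ℕ} (hT : ∀ p ∈ T, p.Prime) (φ : Option T → ZMod 2)
    {a b : ℤ} (ha : a ≠ 0) (hb : b ≠ 0) : pr φ (a * b) = pr φ a + pr φ b := by
  unfold pr
  rw [← sum_add_distrib]
  refine sum_congr rfl fun o _ => ?_
  rw [ct_mul hT ha hb]
  ring

/-- the operator of the twist -/
theorem TT_mul {T : Finset ℕ} (hT : ∀ p ∈ T, p.Prime) (c : Cr T) (u : ℤ) (hu : u ≠ 0)
    (hs : ∀ p : ℕ, p.Prime → (p : ℤ) ∣ u → p ∈ T) (φ : Option T → ZMod 2)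
    (x : VV (2 * c.g + 1)) :
    (((c.mul u hu hs).TT φ : Module.End (ZMod 2) (VV (2 * c.g + 1))) x) =
      (c.TT φ : Module.End (ZMod 2) (VV (2 * c.g + 1))) x + pr φ u • x := by
  refine Subtype.ext (funext fun (i : Fin (2 * c.g + 1)) => ?_)
  show (c.mul u hu hs).tf φ x.1 i = c.tf φ x.1 i + pr φ u * x.1 i
  have hsub : ∀ i j, i ≠ j → c.a i - c.a j ≠ 0 := fun i j h => sub_ne_zero.2 fun h2 => h (c.inj h2)
  have h1 : ∀ j ∈ univ.erase i, pr φ ((c.mul u hu hs).a i - (c.mul u hu hs).a j) * (x.1 i + x.1 j) =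
      pr φ u * (x.1 i + x.1 j) + pr φ (c.a i - c.a j) * (x.1 i + x.1 j) := by
    intro j hj
    have hij : i ≠ j := (ne_of_mem_erase hj).symm
    have h2 : (c.mul u hu hs).a i - (c.mul u hu hs).a j = u * (c.a i - c.a j) := by
      show u * c.a i - u * c.a j = _
      ring
    rw [h2, pr_mul' hT φ hu (hsub i j hij), add_mul]
  have h3 : ∑ j ∈ univ.erase i, (x.1 i + x.1 j) = x.1 i := by
    have h4 : ∑ j, (x.1 i + x.1 j) = (x.1 i + x.1 i) + ∑ j ∈ univ.erase i, (x.1 i + x.1 j) :=
      (Finset.add_sum_erase univ (fun j => x.1 i + x.1 j) (mem_univ i)).symm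
    rw [z2_add_self, zero_add] at h4
    rw [← h4, sum_add_distrib, mem_VV.1 x.2, add_zero, sum_const, card_univ, Fintype.card_fin,
      nsmul_eq_mul]
    push_cast
    have h5 : (2 : ZMod 2) = 0 := by decide
    rw [h5]
    ring
  have h0 : (c.mul u hu hs).tf φ x.1 i = ∑ j ∈ (univ : Finset (Fin (2 * c.g + 1))).erase i,
      pr φ ((c.mul u hu hs).a i - (c.mul u hu hs).a j) * (x.1 i + x.1 j) +
    φ none * x.1 i := rfl
  rw [h0, sum_congr rfl h1, sum_add_distrib, ← mul_sum, h3]
  unfold Cr.tf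
  ring

theorem t_ADJP : S_ADJP := by
  intro T hT h2 κ _ c p i u hu hs hirr hnice hgood hpu 𝓛
  set A : Subalgebra (ZMod 2) (∀ k, Module.End (ZMod 2) (VV (2 * (c k).g + 1))) :=
    Algebra.adjoin (ZMod 2) (Set.range fun φ : Option T → ZMod 2 =>
      (fun k => ((c k).mul u hu hs).TT φ :
        ∀ k, Module.End (ZMod 2) (VV (2 * (c k).g + 1)))) with hA
  show A = ⊤
  have hgen : ∀ φ : Option T → ZMod 2, (fun k => ((c k).mul u hu hs).TT φ :
        ∀ k, Module.End (ZMod 2) (VV (2 * (c k).g + 1))) ∈ A := fun φ =>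
    Algebra.subset_adjoin ⟨φ, rfl⟩
  -- one rank one operator for every curve
  have h1 : ∀ k₀ : κ, (Pi.single k₀ (rk (vv (i k₀).1.1 (i k₀).1.2) (vv (i k₀).1.1 (i k₀).1.2)) :
        ∀ k, Module.End (ZMod 2) (VV (2 * (c k).g + 1))) ∈ A := by
    intro k₀
    have hp : Fact ((p k₀ : T) : ℕ).Prime := ⟨hT _ (p k₀).2⟩
    set φ : Option T → ZMod 2 := Pi.single (some (p k₀)) 1 with hφd
    have hφ : φ none = 0 := by
      rw [hφd, Pi.single_eq_of_ne]
      simp
    have hpr : ∀ z : ℤ, pr φ z = ((padicValInt ((p k₀ : T) : ℕ) z : ℕ) : ZMod 2) := by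
      intro z
      unfold pr
      rw [Finset.sum_eq_single (some (p k₀))]
      · rw [hφd, Pi.single_eq_same, one_mul]
        rfl
      · intro o _ ho
        rw [hφd, Pi.single_eq_of_ne ho, zero_mul]
      · intro h
        exact absurd (mem_univ _) h
    have hpr0 : ∀ z : ℤ, ¬ (((p k₀ : T) : ℕ) : ℤ) ∣ z → pr φ z = 0 := by
      intro z hz
      rw [hpr, padicValInt.eq_zero_of_not_dvd hz, Nat.cast_zero]
    obtain ⟨G, hG⟩ : ∃ G : ∀ k, Module.End (ZMod 2) (VV (2 * (c k).g + 1)),
        ∀ k, G k = ((c k).mul u hu hs).TT φ := ⟨fun k => ((c k).mul u hu hs).TT φ, fun k => rfl⟩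
    have h3 : G ∈ A := by
      have h6 : G = (fun k => ((c k).mul u hu hs).TT φ :
        ∀ k, Module.End (ZMod 2) (VV (2 * (c k).g + 1))) := funext hG
      rw [h6]
      exact hgen φ
    have h4 : G = (Pi.single k₀ (rk (vv (i k₀).1.1 (i k₀).1.2) (vv (i k₀).1.1 (i k₀).1.2)) :
        ∀ k, Module.End (ZMod 2) (VV (2 * (c k).g + 1))) := by
      funext k
      refine LinearMap.ext fun x => ?_
      have h5 : G k x = pr φ u • x + ∑ p : PR (2 * (c k).g + 1), pr φ (df (c k).a p) •
          rk (vv p.1.1 p.1.2) (vv p.1.1 p.1.2) x := by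
        rw [hG k]
        exact TT_eq hT (c k) u hu hs hφ (fun p => pr φ (df (c k).a p)) (fun p => rfl) x
      rw [h5, hpr0 u (hpu k₀), zero_smul, zero_add]
      by_cases hk : k = k₀
      · subst hk
        rw [Pi.single_eq_same]
        obtain ⟨n1, n2, n3, n4⟩ := hnice k
        rw [Finset.sum_eq_single (i k)]
        · have h8 : pr φ (df (c k).a (i k)) = 1 := by
            rw [hpr]
            have n5 : df (c k).a (i k) ≠ 0 := by
              intro h
              rw [h] at n3
              exact n3 (dvd_zero _)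
            have n6 : 1 ≤ padicValInt ((p k : T) : ℕ) (df (c k).a (i k)) := by
              rcases (padicValInt_dvd_iff 1 (df (c k).a (i k))).1 (by rw [pow_one]; exact n2) with h | h
              · exact absurd h n5
              · exact h
            have n7 : ¬ 2 ≤ padicValInt ((p k : T) : ℕ) (df (c k).a (i k)) := by
              intro h
              exact n3 ((padicValInt_dvd_iff 2 (df (c k).a (i k))).2 (Or.inr h))
            have n8 : padicValInt ((p k : T) : ℕ) (df (c k).a (i k)) = 1 := by omega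
            rw [n8, Nat.cast_one]
          rw [h8, one_smul]
        · intro q _ hq
          rw [hpr0 _ (n4 q hq), zero_smul]
        · intro h6
          exact absurd (mem_univ _) h6
      · rw [Pi.single_eq_of_ne hk, LinearMap.zero_apply]
        refine Finset.sum_eq_zero fun q _ => ?_
        have h8 : pr φ (df (c k).a q) = 0 := hpr0 _ ((hgood k k₀ hk).2 _ _ q.2.ne)
        rw [h8, zero_smul]
    rw [← h4]
    exact h3
  -- the projections are surjective
  have h2 : ∀ (k₀ : κ) (f : Module.End (ZMod 2) (VV (2 * (c k₀).g + 1))), ∃ F ∈ A, F k₀ = f := by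
    intro k₀ f
    set ev : (∀ k, Module.End (ZMod 2) (VV (2 * (c k).g + 1))) →ₐ[ZMod 2] Module.End (ZMod 2) (VV (2 * (c k₀).g + 1)) :=
      Pi.evalAlgHom (ZMod 2) (fun k => Module.End (ZMod 2) (VV (2 * (c k).g + 1))) k₀ with hev
    have h3 : A.map ev = ⊤ := by
      rw [eq_top_iff]
      have h4 : Algebra.adjoin (ZMod 2) (Set.range fun φ : Option T → ZMod 2 =>
        ((c k₀).TT φ : Module.End (ZMod 2) (c k₀).V)) = ⊤ := hirr k₀
      rw [← h4]
      refine Algebra.adjoin_le ?_
      rintro _ ⟨φ, rfl⟩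
      have h5 : ev (fun k => ((c k).mul u hu hs).TT φ) ∈ A.map ev := Subalgebra.mem_map.2 ⟨_, hgen φ, rfl⟩
      have h6 : ((c k₀).TT φ : Module.End (ZMod 2) (VV (2 * (c k₀).g + 1))) = ev (fun k => ((c k).mul u hu hs).TT φ) + pr φ u • 1 := by
        refine LinearMap.ext fun x => ?_
        have h7 : (ev (fun k => ((c k).mul u hu hs).TT φ)) x = (c k₀).TT φ x + pr φ u • x :=
          TT_mul hT (c k₀) u hu hs φ x
        rw [LinearMap.add_apply, h7, LinearMap.smul_apply, Module.End.one_apply, add_assoc, ← add_smul, z2_add_self,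
          zero_smul, add_zero]
      have h8 : ((c k₀).TT φ : Module.End (ZMod 2) (VV (2 * (c k₀).g + 1))) ∈ A.map ev := by
        rw [h6]
        exact (A.map ev).add_mem h5 ((A.map ev).smul_mem (A.map ev).one_mem _)
      exact h8
    have h4 : f ∈ A.map ev := by
      rw [h3]
      exact Algebra.mem_top
    obtain ⟨F, hF, hF2⟩ := Subalgebra.mem_map.1 h4
    exact ⟨F, hF, hF2⟩
  -- everything
  have h5 : ∀ (k₀ : κ) (f : Module.End (ZMod 2) (VV (2 * (c k₀).g + 1))),
      (Pi.single k₀ f : ∀ k, Module.End (ZMod 2) (VV (2 * (c k).g + 1))) ∈ A := by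
    intro k₀
    have hl : ∀ f g : Module.End (ZMod 2) (VV (2 * (c k₀).g + 1)),
        (Pi.single k₀ g : ∀ k, Module.End (ZMod 2) (VV (2 * (c k).g + 1))) ∈ A →
        (Pi.single k₀ (f * g) : ∀ k, Module.End (ZMod 2) (VV (2 * (c k).g + 1))) ∈ A := by
      intro f g hg
      obtain ⟨F, hF, rfl⟩ := h2 k₀ f
      have h6 := A.mul_mem hF hg
      have h7 : F * Pi.single k₀ g = (Pi.single k₀ (F k₀ * g) : ∀ k, Module.End (ZMod 2) (VV (2 * (c k).g + 1))) := by
        funext k
        rw [Pi.mul_apply]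
        by_cases hk : k = k₀
        · subst hk
          rw [Pi.single_eq_same, Pi.single_eq_same]
        · rw [Pi.single_eq_of_ne hk, Pi.single_eq_of_ne hk, mul_zero]
      rwa [h7] at h6
    have hr : ∀ f g : Module.End (ZMod 2) (VV (2 * (c k₀).g + 1)),
        (Pi.single k₀ g : ∀ k, Module.End (ZMod 2) (VV (2 * (c k).g + 1))) ∈ A →
        (Pi.single k₀ (g * f) : ∀ k, Module.End (ZMod 2) (VV (2 * (c k).g + 1))) ∈ A := by
      intro f g hg
      obtain ⟨F, hF, rfl⟩ := h2 k₀ f
      have h6 := A.mul_mem hg hF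
      have h7 : Pi.single k₀ g * F = (Pi.single k₀ (g * F k₀) : ∀ k, Module.End (ZMod 2) (VV (2 * (c k).g + 1))) := by
        funext k
        rw [Pi.mul_apply]
        by_cases hk : k = k₀
        · subst hk
          rw [Pi.single_eq_same, Pi.single_eq_same]
        · rw [Pi.single_eq_of_ne hk, Pi.single_eq_of_ne hk, zero_mul]
      rwa [h7] at h6
    -- a third index
    obtain ⟨l, hl1, hl2⟩ : ∃ l : Fin (2 * (c k₀).g + 1), l ≠ (i k₀).1.1 ∧ l ≠ (i k₀).1.2 := by
      by_contra hcon
      push Not at hcon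
      have h6 : (univ : Finset (Fin (2 * (c k₀).g + 1))) ⊆ {(i k₀).1.1, (i k₀).1.2} := by
        intro l _
        rw [Finset.mem_insert, Finset.mem_singleton]
        by_cases hl : l = (i k₀).1.1
        · exact Or.inl hl
        · exact Or.inr (hcon l hl)
      have h7 := (Finset.card_le_card h6).trans Finset.card_le_two
      rw [card_univ, Fintype.card_fin] at h7
      have := (c k₀).hg
      omega
    have hne : (i k₀).1.1 ≠ (i k₀).1.2 := (i k₀).2.ne
    set v : VV (2 * (c k₀).g + 1) := vv (i k₀).1.1 (i k₀).1.2 with hv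
    set w : VV (2 * (c k₀).g + 1) := vv (i k₀).1.1 l with hw
    have hvw : omV _ v w = 1 := by
      rw [hv, om_vv, hw, vv_apply, vv_apply, if_pos rfl, if_neg hl1.symm, if_neg hne.symm, if_neg hl2.symm]
      decide
    have hwv : omV _ w v = 1 := by
      rw [hw, om_vv, hv, vv_apply, vv_apply, if_pos rfl, if_neg hne, if_neg hl1, if_neg hl2]
      decide
    have hrk : ∀ a b : VV (2 * (c k₀).g + 1), (Pi.single k₀ (rk a b) : ∀ k, Module.End (ZMod 2) (VV (2 * (c k).g + 1))) ∈ A := by
      intro a b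
      have h6 := hl (rk a w) _ (hr (rk w b) _ (h1 k₀))
      rw [← hv, rk_mul, hvw, one_smul, rk_mul, hwv, one_smul] at h6
      exact h6
    intro f
    refine all_mem ?_ ((Subalgebra.toSubmodule A).comap (LinearMap.single (ZMod 2)
      (fun k => Module.End (ZMod 2) (VV (2 * (c k).g + 1))) k₀)) ?_ ?_ f
    · push_cast
      have h5 : (2 : ZMod 2) = 0 := by decide
      rw [h5]
      ring
    · intro f hf g hg
      have h6 := A.mul_mem hf hg
      rw [LinearMap.single_apply, LinearMap.single_apply, ← Pi.single_mul] at h6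
      exact h6
    · intro i j hij
      exact hrk _ _
  refine eq_top_iff.2 fun F _ => ?_
  rw [← Finset.univ_sum_single F]
  exact A.sum_mem fun k _ => h5 k (F k)

end Q149.JQ.ADJP
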